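import Pool.Agent.H23.K9.Cert.Patterns

/-! Certificate for pattern A (generated). -/

set_option maxRecDepth 100000

namespace Pool.Agent.H23.K9.Cert

def cA_0 : List Nat :=
  List.cons (nat_lit 95713183932635795505020934) <|
  List.cons (nat_lit 95713053438324208375431172) <|
  List.cons (nat_lit 53565914204026145171570708) <|
  List.cons (nat_lit 95713054807397604375134214) <|
  List.cons (nat_lit 95713182568609157876809732) <|
  List.cons (nat_lit 95713035571117320503820308) <|
  List.cons (nat_lit 53566061781054068870873092) <|
  List.cons (nat_lit 53565933158248711169507348) <|
  List.nil

/-- the certificate is correct -/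
theorem certA : refutes [] patA cA_0 = true := by decide +kernel

end Pool.Agent.H23.K9.Cert
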