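import Pool.Agent.H23.K9.Cert.Patterns

/-! Certificate for pattern Q1 (generated). -/

set_option maxRecDepth 100000

namespace Pool.Agent.H23.K9.Cert

def cQ1_0 : List Nat :=
  List.cons (nat_lit 16958134425411675507130369) <|
  List.cons (nat_lit 6058801902484130818818049) <|
  List.cons (nat_lit 16958079085158649590448137) <|
  List.cons (nat_lit 6059060156873722206486537) <|
  List.cons (nat_lit 16958079079810706637324297) <|
  List.cons (nat_lit 6059060151525779253362697) <|
  List.cons (nat_lit 6059057629510138249740297) <|
  List.cons (nat_lit 16958076557795065633701897) <|
  List.cons (nat_lit 95713386054185976676220993) <|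
  List.cons (nat_lit 95713385476593861334990913) <|
  List.cons (nat_lit 95713386054185963841650761) <|
  List.cons (nat_lit 95713385476593861334990921) <|
  List.cons (nat_lit 95624011579148841064071241) <|
  List.cons (nat_lit 95624011001556738557411401) <|
  List.cons (nat_lit 53312252951087297277001801) <|
  List.cons (nat_lit 53312253528679399783661641) <|
  List.cons (nat_lit 8528704908818630280020032) <|
  List.cons (nat_lit 3626888503544986268663872) <|
  List.cons (nat_lit 95713183932635795505020934) <|
  List.cons (nat_lit 8490875981394219198578697) <|
  List.cons (nat_lit 6110798073475637412692037) <|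
  List.cons (nat_lit 95713054807397604375134214) <|
  List.cons (nat_lit 16953356718696593356750857) <|
  List.cons (nat_lit 6110798073475637412692037) <|
  List.cons (nat_lit 95713035566070553575948361) <|
  List.cons (nat_lit 3659945713500571429306373) <|
  List.cons (nat_lit 3659927266757597231382533) <|
  List.nil

/-- the certificate is correct -/
theorem certQ1 : refutes [patA, patI, patQ0] patQ1 cQ1_0 = true := by decide +kernel

end Pool.Agent.H23.K9.Cert
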