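import Pool.Agent.H23.K9.Cert.Patterns

/-! Certificate for pattern Q2 (generated). -/

set_option maxRecDepth 100000

namespace Pool.Agent.H23.K9.Cert

def cQ2_0 : List Nat :=
  List.cons (nat_lit 95571366738359052285247493) <|
  List.cons (nat_lit 95538310172986661350146053) <|
  List.cons (nat_lit 53258965573862822498009093) <|
  List.cons (nat_lit 53225909008490431562907653) <|
  List.cons (nat_lit 95528810099773346490482693) <|
  List.cons (nat_lit 95519310026580883629539333) <|
  List.cons (nat_lit 53216408935277116703244293) <|
  List.cons (nat_lit 53206908862084653842300933) <|
  List.cons (nat_lit 16953356718676879456862217) <|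
  List.cons (nat_lit 8490875981382171815313417) <|
  List.cons (nat_lit 16953393606817083889287177) <|
  List.cons (nat_lit 8490912869522376247738377) <|
  List.cons (nat_lit 6059060151525779253362697) <|
  List.cons (nat_lit 3627041412853409526448137) <|
  List.cons (nat_lit 6058931024317263403941897) <|
  List.cons (nat_lit 3626912285644893677027337) <|
  List.cons (nat_lit 6059057629510138249740297) <|
  List.cons (nat_lit 6058928502301622400319497) <|
  List.cons (nat_lit 3627038890837768522825737) <|
  List.cons (nat_lit 3626909763629252673404937) <|
  List.cons (nat_lit 95713386054185976676220941) <|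
  List.cons (nat_lit 95713386054183777686519821) <|
  List.cons (nat_lit 95713385404542804354859021) <|
  List.cons (nat_lit 95713182562409097774563401) <|
  List.cons (nat_lit 95713182561567971379314761) <|
  List.cons (nat_lit 95572066339910071288332361) <|
  List.cons (nat_lit 95572064970245219704701001) <|
  List.cons (nat_lit 53260306919775778424291401) <|
  List.cons (nat_lit 95713183932634700288360525) <|
  List.cons (nat_lit 95713183932634687453790285) <|
  List.cons (nat_lit 95713183932634674569085005) <|
  List.cons (nat_lit 95713054807397604375134214) <|
  List.cons (nat_lit 95713054807396509158473741) <|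
  List.cons (nat_lit 95713054807397595818754125) <|
  List.cons (nat_lit 95713053363149477767938061) <|
  List.cons (nat_lit 95528810094425369295126533) <|
  List.cons (nat_lit 95528754754196446701355013) <|
  List.cons (nat_lit 95623312766574385082400845) <|
  List.cons (nat_lit 95623312764611756826820685) <|
  List.cons (nat_lit 95623310602916908153110605) <|
  List.cons (nat_lit 53310911602078155295162445) <|
  List.cons (nat_lit 53310911600103479656316941) <|
  List.cons (nat_lit 53310906916443369945366605) <|
  List.cons (nat_lit 7268186358243028766097417) <|
  List.cons (nat_lit 7268188880258669769719817) <|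
  List.nil

/-- the certificate is correct -/
theorem certQ2 : refutes [patA, patI, patQ0, patQ1] patQ2 cQ2_0 = true := by decide +kernel

end Pool.Agent.H23.K9.Cert
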