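import Pool.Agent.H23.K9.Cert.Patterns

/-! Certificate for pattern R (generated). -/

set_option maxRecDepth 100000

namespace Pool.Agent.H23.K9.Cert

def cR_0 : List Nat :=
  List.cons (nat_lit 95713183932634700288360465) <|
  List.cons (nat_lit 95713054807396509158473745) <|
  List.cons (nat_lit 95713183932632501298659345) <|
  List.cons (nat_lit 95713054807394310168772625) <|
  List.cons (nat_lit 95713183932629202763972625) <|
  List.cons (nat_lit 95713054807391011634085905) <|
  List.cons (nat_lit 95713183932353229606617105) <|
  List.cons (nat_lit 95713036360652439743889425) <|
  List.cons (nat_lit 95713183932351030616915985) <|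
  List.cons (nat_lit 95713036360650240754188305) <|
  List.cons (nat_lit 95713183932347732082229265) <|
  List.cons (nat_lit 95713036360646942219501585) <|
  List.cons (nat_lit 95713054805144743704526865) <|
  List.cons (nat_lit 95713036358682144971685905) <|
  List.cons (nat_lit 95713054805142544714825745) <|
  List.cons (nat_lit 95713036358679945981984785) <|
  List.cons (nat_lit 95713054805139246180139025) <|
  List.cons (nat_lit 95713036358676647447298065) <|
  List.nil

/-- the certificate is correct -/
theorem certR : refutes [patA, patI, patQ0, patQ1, patQ2] patR cR_0 = true := by decide +kernel

end Pool.Agent.H23.K9.Cert
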