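import Pool.Agent.H23.K9.Sound3
import Pool.Agent.H33.K9T
import Pool.Agent.H23.K9.Cert.CertA
import Pool.Agent.H23.K9.Cert.CertB0
import Pool.Agent.H23.K9.Cert.CertB2
import Pool.Agent.H23.K9.Cert.CertB3
import Pool.Agent.H23.K9.Cert.CertB4
import Pool.Agent.H23.K9.Cert.CertI
import Pool.Agent.H23.K9.Cert.CertQ0
import Pool.Agent.H23.K9.Cert.CertQ1
import Pool.Agent.H23.K9.Cert.CertQ2
import Pool.Agent.H23.K9.Cert.CertR

/-!
# There is no system of parities
-/

namespace Pool.Agent.H23.K9

open Cert in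
theorem no_parSys (x : Fin 9 → Fin 9 → Fin 9 → Fin 9 → Fin 9 → Fin 9 → Bool) (hx : ParSys x) :
    False := by
  have hA : HoldsLem x patA := lemma_of_refutes Pool.Agent.H33.K9T.jobT [] patA (by decide +kernel)
    (by decide +kernel) _ certA hx (by simp)
  have hB0 : HoldsLem x patB0 := lemma_of_refutes Pool.Agent.H33.K9T.jobT [patA] patB0
    (by decide +kernel) (by decide +kernel) _ certB0 hx (by simp [hA])
  have hB2 : HoldsLem x patB2 := lemma_of_refutes Pool.Agent.H33.K9T.jobT [patA, patB0] patB2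
    (by decide +kernel) (by decide +kernel) _ certB2 hx (by simp [hA, hB0])
  have hB3 : HoldsLem x patB3 := lemma_of_refutes Pool.Agent.H33.K9T.jobT [patA, patB0, patB2] patB3
    (by decide +kernel) (by decide +kernel) _ certB3 hx (by simp [hA, hB0, hB2])
  have hB4 : HoldsLem x patB4 := lemma_of_refutes Pool.Agent.H33.K9T.jobT
    [patA, patB0, patB2, patB3] patB4
    (by decide +kernel) (by decide +kernel) _ certB4 hx (by simp [hA, hB0, hB2, hB3])
  have hI : HoldsLem x patI := lemma_of_refutes Pool.Agent.H33.K9T.jobT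
    [patA, patB0, patB2, patB3, patB4] patI
    (by decide +kernel) (by decide +kernel) _ certI hx (by simp [hA, hB0, hB2, hB3, hB4])
  have hQ0 : HoldsLem x patQ0 := lemma_of_refutes Pool.Agent.H33.K9T.jobT
    [patA, patI] patQ0
    (by decide +kernel) (by decide +kernel) _ certQ0 hx (by simp [hA, hI])
  have hQ1 : HoldsLem x patQ1 := lemma_of_refutes Pool.Agent.H33.K9T.jobT
    [patA, patI, patQ0] patQ1
    (by decide +kernel) (by decide +kernel) _ certQ1 hx (by simp [hA, hI, hQ0])
  have hQ2 : HoldsLem x patQ2 := lemma_of_refutes Pool.Agent.H33.K9T.jobT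
    [patA, patI, patQ0, patQ1] patQ2
    (by decide +kernel) (by decide +kernel) _ certQ2 hx (by simp [hA, hI, hQ0, hQ1])
  have hR : HoldsLem x patR := lemma_of_refutes Pool.Agent.H33.K9T.jobT
    [patA, patI, patQ0, patQ1, patQ2] patR
    (by decide +kernel) (by decide +kernel) _ certR hx (by simp [hA, hI, hQ0, hQ1, hQ2])
  -- no two disjoint triangles are linked oddly
  have h0 : ∀ v, Inj9 v → x (v 0) (v 1) (v 2) (v 3) (v 4) (v 5) = false := by
    intro v hv
    have h := hR v hv
    by_contra hcon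
    rw [Bool.not_eq_false] at hcon
    apply h
    intro p hp
    have hp' : p = ((0, 1, 2), (3, 4, 5)) := by simpa [patR] using hp
    rw [hp']
    exact hcon
  have hperm : ∀ (a b c d e f : Fin 9), [a, b, c, d, e, f].Nodup → x a b c d e f = false := by
    intro a b c d e f hnd
    have hinj : Function.Injective ![a, b, c, d, e, f] := by
      rw [← List.nodup_ofFn]
      simpa [List.ofFn_succ] using hnd
    obtain ⟨w, hw, hw'⟩ := extend6 _ hinj
    have e0 := hw' 0
    have e1 := hw' 1
    have e2 := hw' 2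
    have e3 := hw' 3
    have e4 := hw' 4
    have e5 := hw' 5
    change w 0 = a at e0
    change w 1 = b at e1
    change w 2 = c at e2
    change w 3 = d at e3
    change w 4 = e at e4
    change w 5 = f at e5
    have := h0 w hw
    rwa [e0, e1, e2, e3, e4, e5] at this
  have h2 := hx.r2 idv idv_inj
  rw [hperm (idv 0) (idv 1) (idv 2) (idv 3) (idv 4) (idv 5) (by decide),
    hperm (idv 0) (idv 1) (idv 3) (idv 2) (idv 4) (idv 5) (by decide),
    hperm (idv 0) (idv 1) (idv 4) (idv 2) (idv 3) (idv 5) (by decide),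
    hperm (idv 0) (idv 1) (idv 5) (idv 2) (idv 3) (idv 4) (by decide),
    hperm (idv 0) (idv 2) (idv 3) (idv 1) (idv 4) (idv 5) (by decide),
    hperm (idv 0) (idv 2) (idv 4) (idv 1) (idv 3) (idv 5) (by decide),
    hperm (idv 0) (idv 2) (idv 5) (idv 1) (idv 3) (idv 4) (by decide),
    hperm (idv 0) (idv 3) (idv 4) (idv 1) (idv 2) (idv 5) (by decide),
    hperm (idv 0) (idv 3) (idv 5) (idv 1) (idv 2) (idv 4) (by decide),
    hperm (idv 0) (idv 4) (idv 5) (idv 1) (idv 2) (idv 3) (by decide)] at h2
  exact absurd h2 (by decide)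

end Pool.Agent.H23.K9
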