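import Pool.Agent.H23.K9.Check

/-! The patterns of the lemmas (generated). -/

namespace Pool.Agent.H23.K9.Cert

/-- pattern A -/
def patA : Pat := [((0,1,2),(3,4,5)),
  ((0,1,2),(6,7,8))]

/-- pattern B0 -/
def patB0 : Pat := [((1,2,3),(4,5,8)),
  ((1,2,3),(4,6,8)),
  ((1,2,3),(5,7,8)),
  ((0,1,3),(4,6,8)),
  ((0,1,3),(4,7,8)),
  ((0,1,3),(5,6,8)),
  ((0,1,2),(4,5,8))]

/-- pattern B2 -/
def patB2 : Pat := [((0,2,3),(4,5,6)),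
  ((0,2,3),(4,5,8)),
  ((0,2,3),(5,6,7)),
  ((0,1,3),(4,5,8)),
  ((0,1,3),(4,6,8)),
  ((0,1,2),(4,5,6))]

/-- pattern B3 -/
def patB3 : Pat := [((0,2,3),(4,5,6)),
  ((0,2,3),(4,6,7)),
  ((0,2,3),(4,6,8)),
  ((0,1,3),(4,5,6)),
  ((0,1,3),(4,5,7)),
  ((0,1,3),(4,6,8)),
  ((0,1,2),(4,5,7))]

/-- pattern B4 -/
def patB4 : Pat := [((1,2,3),(4,6,7)),
  ((1,2,3),(4,6,8)),
  ((1,2,3),(5,6,7)),
  ((0,1,2),(4,6,7)),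
  ((0,1,2),(4,6,8)),
  ((0,1,2),(5,6,7))]

/-- pattern I -/
def patI : Pat := [((0,1,2),(3,4,5)),
  ((0,1,2),(3,6,7))]

/-- pattern Q0 -/
def patQ0 : Pat := [((0,1,2),(3,4,5)),
  ((0,1,6),(3,7,8))]

/-- pattern Q1 -/
def patQ1 : Pat := [((0,1,2),(3,4,5)),
  ((0,1,3),(2,4,5))]

/-- pattern Q2 -/
def patQ2 : Pat := [((0,1,2),(3,4,5)),
  ((0,1,3),(2,4,6))]

/-- pattern R -/
def patR : Pat := [((0,1,2),(3,4,5))]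

end Pool.Agent.H23.K9.Cert
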